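import Pool.Agent.H12.QC.Targets2

/-!
# The number of square classes at the places of a finite set (row SIN)
-/

set_option autoImplicit false

open NumberField IsDedekindDomain Pool.Agent.H23.QCF Pool.Agent.H12.QC
open Pool.Agent.H32.QC (Sol hil Iso FPl Pl ic hs sqAt nsq)

namespace Pool.Agent.H49.QC

section

variable {K : Type} [Field K] [NumberField K]

theorem mem_SQ' (p : Pl K) (a : Kˣ) : a ∈ SQ p ↔ sqAt p (a : K) := Iff.rfl

theorem sq_mem (p : Pl K) (a : Kˣ) : a * a ∈ SQ p := by
  rw [mem_SQ']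
  cases p with
  | inl v =>
    show IsSquare _
    rw [Units.val_mul, map_mul]
    exact ⟨_, rfl⟩
  | inr φ =>
    show IsSquare _
    rw [Units.val_mul, map_mul]
    exact ⟨_, rfl⟩

/-- the index of a finite intersection -/
theorem index_iInf' {G ι : Type} [CommGroup G] [Fintype ι] (H : ι → Subgroup G)
    (hs : ∀ x : ι → G, ∃ y : G, ∀ i, y⁻¹ * x i ∈ H i) :
    (⨅ i, H i).index = ∏ i, (H i).index := by
  have hb : Function.Bijective (Subgroup.quotientiInfEmbedding H) := by
    refine ⟨(Subgroup.quotientiInfEmbedding H).injective, fun z => ?_⟩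
    have hz : ∀ i, ∃ a : G, (QuotientGroup.mk a : G ⧸ H i) = z i :=
      fun i => QuotientGroup.mk_surjective (z i)
    choose x hx using hz
    obtain ⟨y, hy⟩ := hs x
    refine ⟨QuotientGroup.mk y, ?_⟩
    funext i
    rw [Subgroup.quotientiInfEmbedding_apply_mk, ← hx i]
    exact QuotientGroup.eq.2 (hy i)
  have h1 := Nat.card_congr (Equiv.ofBijective _ hb)
  rw [Nat.card_pi] at h1
  exact h1

theorem index_pi (h1 : T_WA) {ι : Type} [Fintype ι] (p : ι → Pl K) (hp : Function.Injective p) :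
    (⨅ i, SQ (p i)).index = ∏ i, (SQ (p i)).index := by
  refine index_iInf' (fun i => SQ (p i)) fun x => ?_
  obtain ⟨y, hy⟩ := h1 K (Set.range p) (Set.finite_range p) (Function.extend p x (fun _ => 1))
  refine ⟨y, fun i => ?_⟩
  have h2 := hy (p i) ⟨i, rfl⟩
  rw [hp.extend_apply, ← mem_SQ'] at h2
  have h3 : y⁻¹ * x i = (y * x i) * (y⁻¹ * y⁻¹) := by
    rw [mul_comm y (x i), mul_assoc, ← mul_assoc y, mul_inv_cancel, one_mul, mul_comm]
  rw [h3]
  exact mul_mem h2 (sq_mem _ _)

/-- the finite places -/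
theorem index_fin (h2 : Pool.Agent.H32.QC.T_OPV) (v : FPl K) :
    (SQ (Sum.inl v : Pl K)).index = nsq (v.adicCompletion K) := by
  set R := (powMonoidHom 2 : (v.adicCompletion K)ˣ →* (v.adicCompletion K)ˣ).range with hR
  set f : Kˣ →* (v.adicCompletion K)ˣ ⧸ R :=
    (QuotientGroup.mk' R).comp (Units.map (ic v : K →* v.adicCompletion K)) with hf
  have hmem : ∀ c : (v.adicCompletion K)ˣ, c ∈ R ↔ IsSquare (c : v.adicCompletion K) := by
    intro c
    constructor
    · rintro ⟨d, hd⟩
      refine ⟨(d : v.adicCompletion K), ?_⟩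
      rw [← hd, powMonoidHom_apply, Units.val_pow_eq_pow_val, sq]
    · rintro ⟨d, hd⟩
      have hd0 : d ≠ 0 := by
        rintro rfl
        rw [mul_zero] at hd
        exact c.ne_zero hd
      refine ⟨Units.mk0 d hd0, ?_⟩
      ext
      rw [powMonoidHom_apply, Units.val_pow_eq_pow_val, Units.val_mk0, sq, ← hd]
  have hker : f.ker = SQ (Sum.inl v : Pl K) := by
    ext a
    rw [MonoidHom.mem_ker, mem_SQ']
    show QuotientGroup.mk' R _ = 1 ↔ IsSquare (ic v (a : K))
    rw [QuotientGroup.mk'_apply, QuotientGroup.eq_one_iff, hmem]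
    rfl
  have hsurj : Function.Surjective f := by
    intro z
    obtain ⟨c0, rfl⟩ := QuotientGroup.mk'_surjective R z
    obtain ⟨e, he, hc⟩ := h2 K v (c0 : v.adicCompletion K) c0.ne_zero
    obtain ⟨x, hx⟩ := (HeightOneSpectrum.denseRange_algebraMap K v).exists_dist_lt
      (c0 : v.adicCompletion K) he
    rw [dist_comm, dist_eq_norm] at hx
    obtain ⟨hx0, hsq⟩ := hc _ hx
    have hxn : x ≠ 0 := by
      rintro rfl
      exact hx0 (map_zero _)
    refine ⟨Units.mk0 x hxn, ?_⟩
    show QuotientGroup.mk' R (Units.map (ic v : K →* v.adicCompletion K) (Units.mk0 x hxn)) =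
      QuotientGroup.mk' R c0
    rw [eq_comm, QuotientGroup.mk'_apply, QuotientGroup.mk'_apply, QuotientGroup.eq, hmem]
    rw [Units.val_mul, Units.val_inv_eq_inv_val, mul_comm, ← div_eq_mul_inv]
    exact hsq
  rw [← hker, Subgroup.index_ker, MonoidHom.range_eq_top.2 hsurj,
    Nat.card_congr (Subgroup.topEquiv (G := (v.adicCompletion K)ˣ ⧸ R)).toEquiv]
  rfl

/-- the real places -/
theorem index_real (φ : K →+* ℝ) : (SQ (Sum.inr φ : Pl K)).index = 2 := by
  rw [Subgroup.index_eq_two_iff]
  refine ⟨-1, fun b => ?_⟩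
  have h : ∀ a : Kˣ, a ∈ SQ (Sum.inr φ : Pl K) ↔ 0 ≤ φ (a : K) := by
    intro a
    rw [mem_SQ']
    show IsSquare (φ (a : K)) ↔ _
    constructor
    · rintro ⟨r, hr⟩
      rw [hr]
      exact mul_self_nonneg r
    · intro h0
      exact ⟨Real.sqrt (φ (a : K)), (Real.mul_self_sqrt h0).symm⟩
  rw [h, h]
  have h3 : φ ((b * -1 : Kˣ) : K) = - φ (b : K) := by
    simp
  have h4 : φ (b : K) ≠ 0 := by
    rw [Ne, map_eq_zero]
    exact b.ne_zero
  rw [h3]
  rcases lt_or_gt_of_ne h4 with h5 | h5
  · left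
    exact ⟨by linarith, by linarith⟩
  · right
    exact ⟨h5.le, by linarith⟩

end

theorem pf_SIN (h1 : T_WA) (h2 : Pool.Agent.H32.QC.T_OPV) : T_SIN := by
  classical
  intro K _ _ S
  letI : Fintype (K →+* ℝ) := Fintype.ofFinite _
  set p : {v // v ∈ S} ⊕ (K →+* ℝ) → Pl K := Sum.map (fun v => v.1) id with hp
  have hinj : Function.Injective p := Function.Injective.sumMap Subtype.val_injective
    Function.injective_id
  have h3 : SQS (Sp (S : Set (FPl K))) = ⨅ i, SQ (p i) := by
    rw [SQS]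
    apply le_antisymm
    · refine le_iInf fun i => ?_
      refine iInf₂_le (p i) ?_
      intro v hv
      cases i with
      | inl w =>
        have h4 : w.1 = v := by
          simpa [hp] using hv
        rw [← h4]
        exact w.2
      | inr φ =>
        simp [hp] at hv
    · refine le_iInf₂ fun q hq => ?_
      cases q with
      | inl v =>
        exact iInf_le (fun i => SQ (p i)) (Sum.inl ⟨v, hq v rfl⟩)
      | inr φ =>
        exact iInf_le (fun i => SQ (p i)) (Sum.inr φ)
  rw [h3, index_pi h1 p hinj, Fintype.prod_sum_type]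
  have h5 : ∀ v : {v // v ∈ S}, (SQ (p (Sum.inl v))).index = nsq (v.1.adicCompletion K) :=
    fun v => index_fin h2 v.1
  have h6 : ∀ φ : K →+* ℝ, (SQ (p (Sum.inr φ))).index = 2 := fun φ => index_real φ
  simp only [h5, h6, Finset.prod_const, Finset.card_univ]
  rw [Nat.card_eq_fintype_card]
  congr 1
  exact Finset.prod_coe_sort S (fun v => nsq (v.adicCompletion K))

end Pool.Agent.H49.QC
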