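import Pool.Agent.H19.NB.Small
import Pool.Agent.H68.QC.Targets

/-!
# Board qc_modules, row LCY: locality
-/

set_option autoImplicit false

namespace Pool.Agent.H49.QC

open Pool.Agent.H68.QC Pool.Agent.H70.OQ Pool.Agent.H70.RK Pool.Agent.H6.NB Finset

theorem pf_LCY (hALT : T_ALT) : T_LCY := by
  intro m j T alg hA
  have hprob : ∀ (O O' : List Bool → Bool), (∀ w, w.length ≤ m → O w = O' w) →
      ∀ ws : List (List Bool), ws.length = j → (∀ w ∈ ws, w.length ≤ m) →
        (alg ws).prob O = (alg ws).prob O' := by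
    intro O O' hO ws h1 h2
    exact Pool.Agent.H19.NB.t_pcg (alg ws) O O' fun i w hw => hO w ((hA ws h1 h2).1 i w hw)
  constructor
  · intro O O' hO h
    refine (hALT _ _ _ _ _).1 (fun ws h1 h2 h3 => ?_) h
    rw [← hprob O O' hO ws h1 h2]
    exact h3
  · intro O O' hO h
    refine (hALT _ _ _ _ _).1 (fun ws h1 h2 h3 => ?_) h
    rw [← hprob O O' hO ws h1 h2]
    exact h3

end Pool.Agent.H49.QC
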